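import Pool.Agent.H4Sail.Main

/-!
# The integer invariants of a sail do not determine a two-dimensional continued fraction

The two continued fractions come from the cubic orders generated by units with minimal polynomials
`x^3 - 12 x^2 + 11 x - 1` (discriminant 7537) and `x^3 - 61 x^2 + 54 x - 1` (discriminant 9371921).
In both cases one sail has a single orbit of vertices and two orbits of faces under the group of
totally positive units; all faces are triangles of integer area one, and they are at integer
distance 1 and 8 from the origin.
-/

namespace Pool.Agent.Results.MP_97563e_nt.SailInvariants

open Pool.Agent.KleinSail

/-- There are two inequivalent two-dimensional continued fractions, both doubly periodic and given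
by planes containing no nonzero integer point, having sails that are related by a homeomorphism
which preserves the cell structure and all the integer invariants. -/
theorem result :
    ∃ (N M : Fin 3 → Fin 3 → ℝ), LinearIndependent ℝ N ∧ LinearIndependent ℝ M ∧
      TotallyIrrational N ∧ TotallyIrrational M ∧ DoublyPeriodic N ∧ DoublyPeriodic M ∧
      (∃ (s t : Fin 3 → ℤˣ) (f g : (Fin 3 → ℝ) → (Fin 3 → ℝ)),
        IsHomeo (sail N s) (sail M t) f g ∧ PreservesInvariants N M s t f) ∧
      ¬ Equivalent N M :=
  Pool.Agent.H4Sail.main

end Pool.Agent.Results.MP_97563e_nt.SailInvariants
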